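import Pool.Agent.H257R4.TP.Fin1
import Pool.Agent.H257R4.TP.Eval
import Pool.Agent.H257R4.TP.Len
import Pool.Agent.H257R4.TP.Blk

set_option autoImplicit false

/-!
# A two-way pushdown language (one head) that needs almost `log₂ n` NOT gates in nondeterministic
programs, in particular in simulations of two-head automata
-/

namespace Pool.Agent.Results.MP_d0a708_lc.FewNegations

open H534R2.Gen Pool.Agent.H541R2 Pool.Agent.H257R4.TP

/-- **Almost `log₂ n` negations are needed to put `2DPDAHEADS(1)` into nondeterministic logarithmic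
space**, even on slices on which the language is monotone, and for programs of size `2 ^ ℓ`. -/
theorem result : ∃ (T : Type) (_ : Fintype T) (L : Set (List (T × Bool))), TwoDPDA L ∧
    ∃ C : ℕ, ∀ n ℓ : ℕ, ∃ t : Fin n → T,
      (∀ x y : Fin n → Bool, (∀ i, x i = true → y i = true) →
        List.ofFn (fun i => (t i, x i)) ∈ L → List.ofFn (fun i => (t i, y i)) ∈ L) ∧
      ∀ (d : ℕ) (w : ℕ → ℕ) (N : ℕ → ℕ → (ℕ → ℕ → Prop) → DNet (Fin n)),
        (∀ i k A A', (∀ j < i, ∀ k' < w j, (A j k' ↔ A' j k')) → N i k A = N i k A') →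
        (∀ A, (∑ i ∈ Finset.range d, ∑ k ∈ Finset.range (w i), (N i k A).size)
          + (N d 0 A).size ≤ 2 ^ ℓ) →
        (∀ x : Fin n → Bool, ∃ A : ℕ → ℕ → Prop,
          (∀ i < d, ∀ k < w i, (A i k ↔ (N i k A).Accepts (fun p => x p = true))) ∧
          ((N d 0 A).Accepts (fun p => x p = true) ↔ List.ofFn (fun i => (t i, x i)) ∈ L)) →
        n ≤ C * (ℓ + 1) ^ 56 * ∏ i ∈ Finset.range d, (w i + 1) := by
  obtain ⟨C, hC⟩ := fin_case eval_eq len_le blocks
  exact ⟨Tag, inferInstance, LL,
    ⟨St, Sy, inferInstance, inferInstance, del, St.q0, {St.acc}, fun w => Iff.rfl⟩, C, hC⟩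

end Pool.Agent.Results.MP_d0a708_lc.FewNegations
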