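import Mathlib
import Pool.Agent.H822R6.SH.Defs
import Pool.Agent.H822R6.SG.COUNT
import Pool.Agent.H822R6.SG.RUNS
import Pool.Agent.H822R6.SG.SOUND
import Pool.Agent.H822R6.SG.GEN
import Pool.Agent.H822R6.SG.SEM
import Pool.Agent.H822R6.SG.NAMES
import Pool.Agent.H822R6.SG.PLACE
import Pool.Agent.H822R6.SG.TRANS
import Pool.Agent.H822R6.SG.LOCAL
import Pool.Agent.H822R6.SG.FINAL

/-!
# A time-space tradeoff for the solvable path problem on nondeterministic multihead machines

A path system is given by `M` records with names of `ℓ + 1` bits, i.e. by a word of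
`N = 5 M (ℓ + 1)` bits.  A nondeterministic program with `k` two-way heads, which move by at most
one position in each step, and with memory states `Q` (space `log₂ |Q|`; the program is non-uniform
and its steps may also depend on the positions of the heads) which accepts exactly the solvable
systems has, on some solvable system, only accepting computations of length `T` with
`M² (ℓ + 1) ≤ D (T + M (ℓ + 1)) (log |Q| + log (M (ℓ + 1)))`; for `ℓ = O(log M)` this says
`T (S + log N) ≥ N² / (D' log N)` unless `S ≥ N / (D' log N)`.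
-/

set_option autoImplicit false

namespace Pool.Agent.Results.MP_d0a708_lc.HeadsTimeSpace

open Pool.Agent.H538R4.SP Pool.Agent.H822R6.SH

theorem result (k : ℕ) : ∃ D : ℕ, 0 < D ∧ ∀ (M ℓ : ℕ), D ≤ M → M ≤ 2 ^ ℓ →
    ∀ (Q : Type) [Fintype Q] (P : Prog (M * (5 * (ℓ + 1))) k Q),
      (∀ w : SPBits M ℓ → Bool, P.Accepts (w ∘ pos.symm) ↔ Solvable w) →
      ∃ w : SPBits M ℓ → Bool, Solvable w ∧
        ∀ (T : ℕ) (ρ : ℕ → Q × (Fin k → Fin (M * (5 * (ℓ + 1))))),
          P.AccRun (w ∘ pos.symm) T ρ →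
          (M : ℝ) ^ 2 * (ℓ + 1) ≤ D * ((T : ℝ) + M * (ℓ + 1)) *
            (Real.log (Fintype.card Q) + Real.log (M * (ℓ + 1))) :=
  TFINAL.FINAL (TGEN.GEN TCOUNT.COUNT TRUNS.RUNS TSOUND.SOUND) TSEM.SEM TNAMES.NAMES TPLACE.PLACE
    TTRANS.TRANS TLOCAL.LOCAL k

end Pool.Agent.Results.MP_d0a708_lc.HeadsTimeSpace
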