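import Pool.Agent.H867R4.NLower

set_option autoImplicit false

namespace Pool.Agent.Results.MP_d0a708_lc.NondetMultihead

open Pool.Agent.H867R4

/-- There is one language `L` over four letters which is accepted by a deterministic two-way pushdown
automaton with one input head and has the following property.  For every `k`, no nondeterministic two-way
`k`-head finite automaton accepts `L` within time `o(n² / log n)`, nor with `o(n / log n)` alternations
between its heads.  Precisely, for all `k` and every finite set `Q` of states there is `c > 0` such that for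
arbitrarily large `n` the following holds for every automaton `M` with state set `Q` which is correct on the
words of length `n`: some `w ∈ L` of length `n` has the property that every accepting computation on `w`,
split in any way into `I` pieces each of which has at most `n` steps or moves at most one head, satisfies
`I ≥ c n / log n`; in particular it has at least `(c / 2) n² / log n` steps. -/
theorem result : ∃ L : Set (List (Fin 4)), Pool.Agent.H541R2.TwoDPDA L ∧
    ∀ (k : ℕ) (Q : Type) (_ : Fintype Q), ∃ c : ℝ, 0 < c ∧ ∀ n₀ : ℕ, ∃ n : ℕ, n₀ ≤ n ∧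
      ∀ M : NMach (Fin 4) k Q, (∀ w : List (Fin 4), w.length = n → (w ∈ L ↔ M.Accepts w)) →
        ∃ w : List (Fin 4), w.length = n ∧ w ∈ L ∧
          (∀ (T I : ℕ) (ρ : ℕ → NCfg k Q), M.AccRun w T ρ → Pieces n T I ρ →
            c * (n : ℝ) ≤ I * Real.log n) ∧
          (∀ (T : ℕ) (ρ : ℕ → NCfg k Q), M.AccRun w T ρ →
            c / 2 * (n : ℝ) ^ 2 ≤ T * Real.log n) := by
  refine ⟨Pool.Agent.H541R2.theLang, Pool.Agent.H541R2.theLang_twoDPDA, fun k Q _ => ?_⟩
  obtain ⟨c, hc, h⟩ := lower_bound k Q
  refine ⟨c, hc, fun n₀ => ?_⟩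
  -- `n` so large that one piece is not enough
  have hlim : Filter.Tendsto (fun n : ℕ => Real.log (n : ℝ) / (n : ℝ)) Filter.atTop (nhds 0) := by
    have h1 : Filter.Tendsto (fun x : ℝ => Real.log x / x) Filter.atTop (nhds 0) := by
      have := Real.tendsto_pow_log_div_mul_add_atTop 1 0 1 one_ne_zero
      simpa using this
    exact h1.comp tendsto_natCast_atTop_atTop
  obtain ⟨n₁, hn₁⟩ := Filter.eventually_atTop.mp
    (hlim.eventually (gt_mem_nhds (show (0 : ℝ) < c / 2 by positivity)))
  obtain ⟨n, hn, hM⟩ := h (max (max n₀ n₁) 2)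
  have hn0 : n₀ ≤ n := le_trans (le_trans (le_max_left _ _) (le_max_left _ _)) hn
  have hn1 : n₁ ≤ n := le_trans (le_trans (le_max_right _ _) (le_max_left _ _)) hn
  have hn2 : 2 ≤ n := le_trans (le_max_right _ _) hn
  refine ⟨n, hn0, fun M hacc => ?_⟩
  obtain ⟨w, hw1, hw2, hw3⟩ := hM M hacc
  refine ⟨w, hw1, hw2, hw3, fun T ρ hρ => ?_⟩
  have hnpos : (0 : ℝ) < n := by positivity
  have hsmall := hn₁ n hn1
  rw [div_lt_iff₀ hnpos] at hsmall
  have hlog0 : 0 ≤ Real.log n := Real.log_natCast_nonneg n
  -- split into `T / n + 1` pieces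
  have hP : Pieces n T (T / n + 1) ρ := by
    refine ⟨fun j => min (j * n) T, by simp, ?_, fun j _ => ⟨?_, Or.inl ?_⟩⟩
    · apply min_eq_right
      have := Nat.lt_mul_of_div_lt (Nat.lt_succ_self (T / n)) (by omega)
      exact this.le
    · exact min_le_min_right _ (Nat.mul_le_mul_right _ (Nat.le_succ _))
    · have e : (j + 1) * n = j * n + n := by ring
      simp only [e]
      omega
  have h1 := hw3 T _ ρ hρ hP
  push_cast at h1
  have h2 : ((T / n : ℕ) : ℝ) ≤ (T : ℝ) / n := Nat.cast_div_le
  have h3 : c * (n : ℝ) ≤ ((T : ℝ) / n) * Real.log n + Real.log n := by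
    calc c * (n : ℝ) ≤ (((T / n : ℕ) : ℝ) + 1) * Real.log n := h1
      _ ≤ ((T : ℝ) / n + 1) * Real.log n := by gcongr
      _ = _ := by ring
  have h4 : c / 2 * (n : ℝ) ≤ ((T : ℝ) / n) * Real.log n := by linarith
  have h5 : c / 2 * (n : ℝ) * n ≤ ((T : ℝ) / n) * Real.log n * n :=
    mul_le_mul_of_nonneg_right h4 hnpos.le
  have h6 : ((T : ℝ) / n) * Real.log n * n = T * Real.log n := by
    field_simp
  rw [h6] at h5
  calc c / 2 * (n : ℝ) ^ 2 = c / 2 * (n : ℝ) * n := by ring
    _ ≤ _ := h5

end Pool.Agent.Results.MP_d0a708_lc.NondetMultihead
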